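import Mathlib
import Pool.Agent.K3h16.CO.Thm

set_option autoImplicit false

open MeasureTheory

namespace Pool.Agent.Results.MP_e27144_an.ConcaveOrder

/-- `×2`, `×3`-invariant Borel probability measures on the circle `ℝ/ℤ` -/
def Invariant (μ : Measure UnitAddCircle) : Prop :=
  IsProbabilityMeasure μ ∧ MeasurePreserving (fun x : UnitAddCircle => 2 • x) μ μ ∧
    MeasurePreserving (fun x : UnitAddCircle => 3 • x) μ μ

/-- the uniform probability measure on the periodic orbit `{1/5, 2/5, 3/5, 4/5}` -/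
noncomputable def fifth : Measure UnitAddCircle :=
  (1 / 4 : ENNReal) • ∑ k ∈ Finset.Icc (1 : ℕ) 4,
    Measure.dirac ((((k : ℝ) / 5 : ℝ) : UnitAddCircle))

/-- `φ` is concave and nondecreasing on `[0, 1/2]` -/
def Admissible (φ : ℝ → ℝ) : Prop :=
  ConcaveOn ℝ (Set.Icc 0 (1 / 2)) φ ∧ MonotoneOn φ (Set.Icc 0 (1 / 2))

/-- **The periodic orbit of `1/5` is the most central `×2`, `×3`-invariant measure.**
`‖x‖` is the distance from `x` to the nearest integer. No entropy, no ergodicity, atoms allowed. -/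
theorem result :
    Invariant fifth ∧
    -- (1) the order
    (∀ μ : Measure UnitAddCircle, Invariant μ → ∀ φ : ℝ → ℝ, Admissible φ →
      ∫ x, φ ‖x‖ ∂μ ≤ ∫ x, φ ‖x‖ ∂fifth ∧
      ∫ x, φ ‖x‖ ∂fifth = (φ (1 / 5) + φ (2 / 5)) / 2 ∧
      (StrictConcaveOn ℝ (Set.Icc 0 (1 / 2)) φ →
        (∫ x, φ ‖x‖ ∂μ = ∫ x, φ ‖x‖ ∂fifth ↔ μ = fifth))) ∧
    -- (2) two invariant measures, all integer frequencies
    (∀ μ ν : Measure UnitAddCircle, Invariant μ → Invariant ν → ∀ m n : ℤ, ∀ φ : ℝ → ℝ,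
      Admissible φ → ∫ x, ∫ y, φ ‖m • x + n • y‖ ∂ν ∂μ ≤ (φ (1 / 5) + φ (2 / 5)) / 2) ∧
    -- (3) phase locking
    (∀ (a : ℝ) (K : NNReal) (h : UnitAddCircle → ℝ), LipschitzWith K h → 19 * K < a →
      ∀ μ : Measure UnitAddCircle, Invariant μ →
        ∫ x, (a * ‖x‖ + h x) ∂μ ≤ ∫ x, (a * ‖x‖ + h x) ∂fifth ∧
        (∫ x, (a * ‖x‖ + h x) ∂μ = ∫ x, (a * ‖x‖ + h x) ∂fifth ↔ μ = fifth)) ∧
    -- (4) the logarithmic potential
    (∀ μ : Measure UnitAddCircle, Invariant μ →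
      Integrable (fun x : UnitAddCircle => Real.log ‖(1 : ℂ) - (fourier 1 x : ℂ)‖) μ →
        ∫ x, Real.log ‖(1 : ℂ) - (fourier 1 x : ℂ)‖ ∂μ ≤ Real.log 5 / 4 ∧
        (∫ x, Real.log ‖(1 : ℂ) - (fourier 1 x : ℂ)‖ ∂μ = Real.log 5 / 4 ↔ μ = fifth)) ∧
    -- (5) the orbit of every single point
    (∀ φ : ℝ → ℝ, Admissible φ → ∃ C : ℝ, ∀ (x : UnitAddCircle) (M N : ℕ),
      ∑ i ∈ Finset.range M, ∑ j ∈ Finset.range N, φ ‖(2 ^ i * 3 ^ j) • x‖ ≤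
        (M * N : ℝ) * ((φ (1 / 5) + φ (2 / 5)) / 2) + C * (M + N)) ∧
    (∃ C : ℝ, ∀ (x : UnitAddCircle) (M N : ℕ),
      ∑ i ∈ Finset.range M, ∑ j ∈ Finset.range N,
        Real.log ‖(1 : ℂ) - (fourier 1 ((2 ^ i * 3 ^ j) • x) : ℂ)‖ ≤
        (M * N : ℝ) * (Real.log 5 / 4) + C * (M + N)) ∧
    -- (6) finite orbits
    (∀ O : Finset UnitAddCircle, Set.BijOn (fun x : UnitAddCircle => 2 • x) O O →
      Set.BijOn (fun x : UnitAddCircle => 3 • x) O O →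
        ∏ x ∈ O, ‖(1 : ℂ) - (fourier 1 x : ℂ)‖ ≤ (5 : ℝ) ^ ((O.card : ℝ) / 4)) := by
  have hf : fifth = Pool.Agent.K3h16.CO.mu5 := rfl
  refine ⟨Pool.Agent.K3h16.CO.inv_mu5, ?_, ?_, ?_, ?_, ?_, Pool.Agent.K3h16.CO.log_windows,
    Pool.Agent.K3h16.CO.log_orbits⟩
  · intro μ hμ φ hφ
    rw [hf, Pool.Agent.K3h16.CO.integral_norm_mu5]
    exact ⟨Pool.Agent.K3h16.CO.main_bounded hφ.1 hφ.2 hμ, rfl, fun hs =>
      Pool.Agent.K3h16.CO.main_bounded_eq hs hφ.2 hμ⟩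
  · intro μ ν hμ hν m n φ hφ
    exact Pool.Agent.K3h16.CO.two_measures hφ.1 hφ.2 hμ hν m n
  · intro a K h hK ha μ hμ
    rw [hf]
    obtain ⟨h1, h2⟩ := Pool.Agent.K3h16.CO.locking hK ha.le hμ
    exact ⟨h1, h2 ha, fun h => by rw [h]⟩
  · intro μ hμ hi
    exact Pool.Agent.K3h16.CO.log_potential hμ hi
  · intro φ hφ
    exact Pool.Agent.K3h16.CO.windows (hφ.1.subset Pool.Agent.K3h16.CO.Ioc_sub (convex_Ioc _ _))
      (hφ.2.mono Pool.Agent.K3h16.CO.Ioc_sub) (Pool.Agent.K3h16.CO.zero_le_of_mono hφ.2)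

end Pool.Agent.Results.MP_e27144_an.ConcaveOrder
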