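import Pool.Agent.K3h28.RS.Series

/-!
# Random series are not invariant under `×p` and `×q`, Lebesgue measure excepted

Convergent random series on the circle, infinitely many terms of which overlap with a nontrivial
translate of themselves by at least `c > 0` (for instance have two atoms of mass at least `c`), have
laws which are invariant under two multiplicatively independent multiplications only if the law is
Lebesgue measure.  No assumption on the entropy or on ergodicity is made.
-/

set_option autoImplicit false

open MeasureTheory Set Filter Topology ProbabilityTheory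
open scoped ENNReal NNReal

namespace Pool.Agent.Results.MP_e27144_an.IndependentSums

universe u

/-- probability measures invariant under `x ↦ p x` and `x ↦ q x` -/
structure Inv (p q : ℕ) (μ : Measure UnitAddCircle) : Prop where
  prob : IsProbabilityMeasure μ
  left : MeasurePreserving (fun x : UnitAddCircle => p • x) μ μ
  right : MeasurePreserving (fun x : UnitAddCircle => q • x) μ μ

/-- Let `p, q ≥ 2` be multiplicatively independent (for instance `2` and `3`) and `c > 0`.

(1) Let `μ` be an invariant probability measure other than Lebesgue measure.  For all but finitely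
many `θ`, no convolution factor `ρ` of `μ` satisfies `∑ x, min (ρ {x}) (ρ {x + θ}) ≥ c`.

(2) Let moreover `G` be a countable subgroup of the circle.  For all but finitely many `θ` in `G`
there is no measure `κ ≤ μ` whose translate by `θ` is also below `μ` and which has
`κ F ≥ c μ F` for every Borel set `F` invariant under the translations by the elements of `G`.

(3) Let `S` be the almost sure sum of a series of circle valued random variables `X n`, with an
invariant law.  If the `X n` are independent and for infinitely many `n` there is `θ ≠ 0` with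
`∑ x, min (P {X n = x}) (P {X n = x + θ}) ≥ c`, then the law of `S` is Lebesgue measure.  The same
holds without independence, if for infinitely many `n` the variable `X n` has countably many values,
two of which have conditional probability at least `c` given the sum `S - X n` of the other terms. -/
theorem result (p q : ℕ) (hp : 2 ≤ p) (hq : 2 ≤ q)
    (hpq : Irrational (Real.log (p : ℝ) / Real.log (q : ℝ))) (c : ℝ≥0) (hc : 0 < c) :
    (∀ μ : Measure UnitAddCircle, Inv p q μ → μ ≠ volume →
      {θ : UnitAddCircle | ∃ ρ σ : Measure UnitAddCircle,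
        IsProbabilityMeasure ρ ∧ IsProbabilityMeasure σ ∧
        (ρ.prod σ).map (fun y => y.1 + y.2) = μ ∧
        (c : ℝ≥0∞) ≤ ∑' x, min (ρ {x}) (ρ {x + θ})}.Finite) ∧
    (∀ μ : Measure UnitAddCircle, Inv p q μ → μ ≠ volume →
      ∀ G : AddSubgroup UnitAddCircle, (G : Set UnitAddCircle).Countable →
      {θ : UnitAddCircle | θ ∈ G ∧ ∃ κ : Measure UnitAddCircle, κ ≤ μ ∧
        κ.map (fun x => x + θ) ≤ μ ∧
        ∀ F : Set UnitAddCircle, MeasurableSet F → (∀ g ∈ G, ∀ x ∈ F, x + g ∈ F) →
          (c : ℝ≥0∞) * μ F ≤ κ F}.Finite) ∧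
    (∀ (Ω : Type u) [MeasurableSpace Ω] (P : Measure Ω) [IsProbabilityMeasure P]
      (X : ℕ → Ω → UnitAddCircle) (S : Ω → UnitAddCircle),
      (∀ n, Measurable (X n)) → Measurable S →
      (∀ᵐ ω ∂P, Tendsto (fun N => ∑ i ∈ Finset.range N, X i ω) atTop (𝓝 (S ω))) →
      Inv p q (P.map S) →
      (iIndepFun X P →
        (∃ᶠ n in atTop, ∃ θ : UnitAddCircle, θ ≠ 0 ∧
          (c : ℝ≥0∞) ≤ ∑' x, min (P.map (X n) {x}) (P.map (X n) {x + θ})) →
        P.map S = volume) ∧
      ((∃ᶠ n in atTop, (∃ C : Set UnitAddCircle, C.Countable ∧ ∀ᵐ ω ∂P, X n ω ∈ C) ∧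
          ∃ a b : UnitAddCircle, a ≠ b ∧ ∀ B : Set UnitAddCircle, MeasurableSet B →
            (c : ℝ≥0∞) * P {ω | S ω - X n ω ∈ B} ≤ P {ω | X n ω = a ∧ S ω - X n ω ∈ B} ∧
            (c : ℝ≥0∞) * P {ω | S ω - X n ω ∈ B} ≤ P {ω | X n ω = b ∧ S ω - X n ω ∈ B}) →
        P.map S = volume)) := by
  refine ⟨fun μ hμ hne => ?_, fun μ hμ hne G hG => ?_, ?_⟩
  · have := hμ.prob
    refine (Pool.Agent.K3h28.RS.finite_theta hp hq hpq hμ.left hμ.right hne hc).subset ?_
    rintro θ ⟨ρ, σ, h1, h2, h3, h4⟩
    exact Pool.Agent.K3h28.RS.factor_mem ρ σ h4 h3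
  · have := hμ.prob
    refine (Pool.Agent.K3h28.RS.finite_theta hp hq hpq hμ.left hμ.right hne hc).subset ?_
    rintro θ ⟨hθ, κ, h1, h2, h3⟩
    exact Pool.Agent.K3h28.RS.quasi_mem G hG hθ h1 h2 h3
  · intro Ω _ P _ X S hX hS hlim hinv
    exact ⟨fun hind h => Pool.Agent.K3h28.RS.series_indep hp hq hpq hX hind hS hlim hinv.left
      hinv.right hc h, fun h => Pool.Agent.K3h28.RS.series_dep hp hq hpq hX hS hlim hinv.left
      hinv.right hc h⟩

end Pool.Agent.Results.MP_e27144_an.IndependentSums
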