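import Pool.Agent.K3h68.IL.Fin

/-!
# Furstenberg's ×p ×q conjecture is a local question at Lebesgue measure

Let `p, q ≥ 2`.  An *exceptional* measure is an atomless Borel probability measure on the circle
which is invariant under `x ↦ p x` and `x ↦ q x`, ergodic for the joint action and different from
Lebesgue measure.

* The following are equivalent: Furstenberg's conjecture for `p, q` (every atomless jointly invariant
  probability measure is Lebesgue measure); there is no exceptional measure; there are only finitely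
  many; their set is weak-* closed; Lebesgue measure is not a weak-* limit of exceptional measures;
  for some finite set `B` of nonzero integers and some `ε > 0` every exceptional measure has a Fourier
  coefficient of modulus at least `ε` at some element of `B`; some continuous function has a larger
  integral, by a fixed amount, for all exceptional measures than for Lebesgue measure.
* If `ν` is exceptional, then all its images under `x ↦ n x` are exceptional, infinitely many of them
  are different, those close to Lebesgue measure have density one, and `ν` is itself the image, under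
  suitable maps `x ↦ n x`, of exceptional measures arbitrarily close to Lebesgue measure.
* A rate: if `log p / log q` is irrational, then every ergodic invariant measure has, for every
  `n ≥ 2` coprime to `p` and `q`, an ergodic invariant lift under `x ↦ n x` with mean square of the
  Fourier coefficients over any finite set of nonzero `b` with `b² ≤ n` at most
  `16 log p log q / (log n)²`.
-/

set_option autoImplicit false

open MeasureTheory Filter Topology Set

namespace Pool.Agent.Results.MP_e27144_an.IsolatedLebesgue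

/-- `ν` is invariant under `x ↦ p x` and `x ↦ q x`. -/
def Invariant (p q : ℕ) (ν : Measure UnitAddCircle) : Prop :=
  MeasurePreserving (fun x : UnitAddCircle => p • x) ν ν ∧
    MeasurePreserving (fun x : UnitAddCircle => q • x) ν ν

/-- `ν` is ergodic for the joint action. -/
def JointlyErgodic (p q : ℕ) (ν : Measure UnitAddCircle) : Prop :=
  ∀ E : Set UnitAddCircle, MeasurableSet E → (fun x : UnitAddCircle => p • x) ⁻¹' E = E →
    (fun x : UnitAddCircle => q • x) ⁻¹' E = E → ν E = 0 ∨ ν E = 1

/-- The exceptional measures: atomless, invariant, ergodic, and not Lebesgue measure. -/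
def Exceptional (p q : ℕ) : Set (ProbabilityMeasure UnitAddCircle) :=
  {ν | Invariant p q ν ∧ (∀ x, (ν : Measure UnitAddCircle) {x} = 0) ∧ JointlyErgodic p q ν ∧
    (ν : Measure UnitAddCircle) ≠ volume}

/-- Lebesgue measure -/
noncomputable def lebesgue : ProbabilityMeasure UnitAddCircle :=
  ⟨volume, ⟨UnitAddCircle.measure_univ⟩⟩

/-- The image of `ν` under `x ↦ n x`. -/
noncomputable def image (n : ℕ) (ν : ProbabilityMeasure UnitAddCircle) :
    ProbabilityMeasure UnitAddCircle :=
  ν.map (f := fun x : UnitAddCircle => n • x) (continuous_nsmul n).measurable.aemeasurable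

/-- The Fourier coefficient of `ν` at `b`. -/
noncomputable def coeff (ν : ProbabilityMeasure UnitAddCircle) (b : ℤ) : ℂ :=
  ∫ x, (fourier b x : ℂ) ∂(ν : Measure UnitAddCircle)

lemma exc_eq (p q : ℕ) : Exceptional p q = K3h68.IL.Exc p q := by
  ext ν
  constructor
  · rintro ⟨⟨a, b⟩, c, d, e⟩
    exact ⟨a, b, c, d, e⟩
  · rintro ⟨a, b, c, d, e⟩
    exact ⟨⟨a, b⟩, c, d, e⟩

open Classical in
theorem result (p q : ℕ) (hp : 2 ≤ p) (hq : 2 ≤ q) :
    List.TFAE [
      ∀ μ : Measure UnitAddCircle, IsProbabilityMeasure μ → Invariant p q μ →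
        (∀ x, μ {x} = 0) → μ = volume,
      Exceptional p q = ∅,
      (Exceptional p q).Finite,
      IsClosed (Exceptional p q),
      lebesgue ∉ closure (Exceptional p q),
      ∃ (B : Finset ℤ) (ε : ℝ), (0 : ℤ) ∉ B ∧ 0 < ε ∧
        ∀ ν ∈ Exceptional p q, ∃ b ∈ B, ε ≤ ‖coeff ν b‖,
      ∃ (f : C(UnitAddCircle, ℝ)) (c : ℝ), ∫ x, f x < c ∧
        ∀ ν ∈ Exceptional p q, c ≤ ∫ x, f x ∂(ν : Measure UnitAddCircle)] ∧
    (∀ ν ∈ Exceptional p q,
      (∀ n : ℕ, 1 ≤ n → image n ν ∈ Exceptional p q) ∧
      {η | ∃ n : ℕ, 1 ≤ n ∧ η = image n ν}.Infinite ∧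
      (∀ (B : Finset ℤ) (ε : ℝ), (0 : ℤ) ∉ B → 0 < ε →
        Tendsto (fun N : ℕ => (((Finset.range N).filter fun n : ℕ =>
          ∀ b ∈ B, ‖coeff (image n ν) b‖ < ε).card : ℝ) / N) atTop (𝓝 1)) ∧
      lebesgue ∈ closure {η | η ∈ Exceptional p q ∧ ∃ n : ℕ, 1 ≤ n ∧ ν = image n η}) ∧
    (Irrational (Real.log (p : ℝ) / Real.log (q : ℝ)) →
      ∀ ν : ProbabilityMeasure UnitAddCircle, Invariant p q ν → JointlyErgodic p q ν →
        ∀ n : ℕ, 2 ≤ n → Nat.Coprime n p → Nat.Coprime n q →
          ∀ B : Finset ℤ, (∀ b ∈ B, b ≠ 0 ∧ b ^ 2 ≤ n) →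
            ∃ ν' : ProbabilityMeasure UnitAddCircle, Invariant p q ν' ∧ JointlyErgodic p q ν' ∧
              image n ν' = ν ∧ ∑ b ∈ B, ‖coeff ν' b‖ ^ 2 ≤
                16 * Real.log p * Real.log q / Real.log n ^ 2 * B.card) := by
  refine ⟨?_, ?_, ?_⟩
  · have h := K3h68.IL.tfae (p := p) (q := q) hp
    rw [← exc_eq] at h
    have e : (∀ μ : Measure UnitAddCircle, IsProbabilityMeasure μ → Invariant p q μ →
        (∀ x, μ {x} = 0) → μ = volume) ↔ (∀ μ : Measure UnitAddCircle, IsProbabilityMeasure μ →
        MeasurePreserving (fun x : UnitAddCircle => p • x) μ μ →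
        MeasurePreserving (fun x : UnitAddCircle => q • x) μ μ → (∀ x, μ {x} = 0) → μ = volume) :=
      ⟨fun h μ hμ a b c => h μ hμ ⟨a, b⟩ c, fun h μ hμ a c => h μ hμ a.1 a.2 c⟩
    rw [e]
    exact h
  · intro ν hν
    rw [exc_eq] at hν ⊢
    refine ⟨fun n hn => K3h68.IL.im_mem hp hν hn, K3h68.IL.im_infinite hp hν,
      fun B ε hB hε => ?_, K3h68.IL.leb_mem_closure' hp hq hν⟩
    have h := K3h68.IL.density_one (μ := (ν : Measure UnitAddCircle)) hν.2.2.1 hB hε
    refine h.congr fun N => ?_
    congr 2
  · intro hirr ν hν he n hn h1 h2 B hB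
    obtain ⟨ν', a1, a2, a3, a4, a5, a6⟩ := K3h68.IL.lifts hp hq hirr hν.1 hν.2 he hn h1 h2 B hB
    exact ⟨⟨ν', a1⟩, ⟨a2, a3⟩, a4, Subtype.ext a5, a6⟩

end Pool.Agent.Results.MP_e27144_an.IsolatedLebesgue
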