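import Pool.Agent.K3h58.WS.Inv

/-!
# The frequency of the scales at which an orbit is uniformly distributed

Let `p, q ≥ 2` be coprime. For a point `x` of the circle let `u (x)` be the lower density of the
scales `j` for which the orbit `n x` is uniformly distributed in the window
`{n = p ^ a * q ^ b : 2 ^ j ≤ n < H 2 ^ j}`, up to an error which tends to zero as `H → ∞`.

1. The set `{u ≤ c}` has Hausdorff dimension exactly `c`, for all `0 ≤ c ≤ 1`.
2. For every probability measure invariant under `×p` and `×q`, `u` is almost everywhere `0` or `1`,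
   and the restriction of the measure to `{u > 0}` is a multiple of Lebesgue measure. So the single
   set `{u = 0}`, of Hausdorff dimension zero, carries the non-Lebesgue parts of all invariant
   measures.
3. If a measure (without any invariance) gives mass zero to all sets of dimension less than `s` then
   `u ≥ s` almost everywhere.
4. All the points which are generic along windows for some measure other than Lebesgue measure have
   `u = 0`, and they generate a subgroup of the circle of Hausdorff dimension zero.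
5. The underlying coverings, uniformly in `n`.
6. Clusters: among points with mutual distances between `1 / X` and `K / X` at most `1 / ε` are not
   uniformly distributed up to `ε` in the window `X ≤ n < H X`, for `H ≥ H₀ (ε, K)`, `X ≥ X₀`.
-/

set_option autoImplicit false

open MeasureTheory Filter Topology

namespace Pool.Agent.Results.MP_e27144_an.LebesgueFrequency

open Classical in
/-- The window of the numbers `n = p ^ a * q ^ b` with `X ≤ n < Y`. -/
noncomputable def window (p q : ℕ) (X Y : ℝ) : Finset ℕ :=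
  (Finset.range ⌈Y⌉₊).filter fun n => (∃ a b : ℕ, n = p ^ a * q ^ b) ∧ X ≤ n

open Classical in
/-- The number of the `n` in the window such that `n x` lies in the closed arc of centre `c` and
radius `r`. -/
noncomputable def visits (p q : ℕ) (X Y : ℝ) (x c : UnitAddCircle) (r : ℝ) : ℕ :=
  ((window p q X Y).filter fun n => ‖n • x - c‖ ≤ r).card

/-- The window is nonempty and all closed arcs are visited with the right frequency, up to `ε`. -/
def Uniform (p q : ℕ) (ε X Y : ℝ) (x : UnitAddCircle) : Prop :=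
  (window p q X Y).Nonempty ∧ ∀ c : UnitAddCircle, ∀ r : ℝ, 0 ≤ r → r ≤ 1 / 2 →
    |(visits p q X Y x c r : ℝ) - 2 * r * (window p q X Y).card| ≤ ε * (window p q X Y).card

open Classical in
/-- The number of the `j < n` for which the orbit of `x` is uniformly distributed up to `ε` in the
window `2 ^ j ≤ m < H 2 ^ j`. -/
noncomputable def count (p q : ℕ) (ε : ℝ) (H : ℕ) (x : UnitAddCircle) (n : ℕ) : ℕ :=
  ((Finset.range n).filter fun j => Uniform p q ε (2 ^ j) (H * 2 ^ j) x).card

/-- The frequency `u (x)` of the uniform windows: the supremum of the `c` such that for all `ε > 0`,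
all large `H` and all large `n` at least `(c - ε) n` of the first `n` windows are uniform up to `ε`. -/
noncomputable def frequency (p q : ℕ) (x : UnitAddCircle) : ℝ :=
  sSup {c : ℝ | ∀ ε : ℝ, 0 < ε → ∃ H₀ : ℕ, ∀ H : ℕ, H₀ ≤ H → ∀ᶠ n : ℕ in atTop,
    (c - ε) * n ≤ (count p q ε H x n : ℝ)}

/-- The point `x` is generic for the measure `μ` along windows. -/
def WindowGeneric (p q : ℕ) (μ : Measure UnitAddCircle) (x : UnitAddCircle) : Prop :=
  ∀ f : UnitAddCircle → ℝ, Continuous f → ∀ ε : ℝ, 0 < ε → ∃ H₀ : ℕ, ∀ H : ℕ, H₀ ≤ H →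
    ∃ X₀ : ℝ, ∀ X : ℝ, X₀ ≤ X →
      |∑ n ∈ window p q X (H * X), f (n • x) - (∫ y, f y ∂μ) * (window p q X (H * X)).card| ≤
        ε * (window p q X (H * X)).card

lemma uniform_iff {p q : ℕ} {ε : ℝ} (hε : 0 < ε) (X Y : ℝ) (x : UnitAddCircle) :
    Uniform p q ε X Y x ↔ Pool.Agent.K3h58.WS.Low p q ε X Y x := by
  constructor
  · rintro ⟨h1, h2⟩
    refine ⟨h1, fun c r hr0 hr => ?_⟩
    have h3 := (abs_le.1 (h2 c r hr0 hr)).1
    have e1 : visits p q X Y x c r = Pool.Agent.W764.HL.vis p q X Y x c r := rfl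
    have e2 : window p q X Y = Pool.Agent.W764.HL.win p q X Y := rfl
    rw [e1, e2] at h3
    linarith
  · intro h
    refine ⟨h.1, fun c r hr0 hr => ?_⟩
    have h1 := h.2 c r hr0 hr
    have h2 := h.upper hε.le c hr0 hr
    have e1 : visits p q X Y x c r = Pool.Agent.W764.HL.vis p q X Y x c r := rfl
    have e2 : window p q X Y = Pool.Agent.W764.HL.win p q X Y := rfl
    rw [e1, e2, abs_le]
    constructor <;> linarith

lemma count_eq {p q : ℕ} {ε : ℝ} (hε : 0 < ε) (H : ℕ) (x : UnitAddCircle) (n : ℕ) :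
    count p q ε H x n = Pool.Agent.K3h58.WS.count p q ε H x n := by
  classical
  unfold count Pool.Agent.K3h58.WS.count
  congr 1
  ext j
  simp only [Finset.mem_filter]
  rw [uniform_iff hε]

lemma frequency_eq (p q : ℕ) (x : UnitAddCircle) :
    frequency p q x = Pool.Agent.K3h58.WS.freq p q x := by
  unfold frequency Pool.Agent.K3h58.WS.freq Pool.Agent.K3h58.WS.AtLeast
  congr 1
  ext c
  simp only [Set.mem_setOf_eq]
  refine forall_congr' fun ε => forall_congr' fun hε => exists_congr fun H₀ =>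
    forall_congr' fun H => forall_congr' fun _ => eventually_congr (Eventually.of_forall fun n => ?_)
  rw [count_eq hε]

open Classical in
/-- **The frequency of the uniform windows of the orbits of `×p`, `×q`.** -/
theorem result (p q : ℕ) (hp : 2 ≤ p) (hq : 2 ≤ q) (hpq : Nat.Coprime p q) :
    -- 1. the dimension spectrum
    (∀ c : ℝ, 0 ≤ c → c ≤ 1 →
      dimH {x : UnitAddCircle | frequency p q x ≤ c} = ENNReal.ofReal c) ∧
    -- 2. invariant measures
    (∀ μ : Measure UnitAddCircle, IsProbabilityMeasure μ →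
      MeasurePreserving (fun y : UnitAddCircle => p • y) μ μ →
      MeasurePreserving (fun y : UnitAddCircle => q • y) μ μ →
      (∀ᵐ x ∂μ, frequency p q x = 0 ∨ frequency p q x = 1) ∧
      μ.restrict {x | 0 < frequency p q x} = μ {x | 0 < frequency p q x} • volume) ∧
    -- 3. arbitrary measures
    (∀ (s : ℝ) (ν : Measure UnitAddCircle),
      (∀ E : Set UnitAddCircle, dimH E < ENNReal.ofReal s → ν E = 0) →
      ∀ᵐ x ∂ν, s ≤ frequency p q x) ∧
    -- 4. generic points of other measures
    (∀ (x : UnitAddCircle) (μ : Measure UnitAddCircle), IsProbabilityMeasure μ → μ ≠ volume →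
      WindowGeneric p q μ x → frequency p q x = 0) ∧
    dimH (AddSubgroup.closure {x : UnitAddCircle | ∃ μ : Measure UnitAddCircle,
      IsProbabilityMeasure μ ∧ μ ≠ volume ∧ WindowGeneric p q μ x} : Set UnitAddCircle) = 0 ∧
    -- 5. coverings at every scale
    (∀ ε η : ℝ, 0 < ε → 0 < η → ∃ H₀ : ℕ, ∀ H : ℕ, H₀ ≤ H → ∃ C : ℝ, ∀ c : ℝ, 0 ≤ c → ∀ n : ℕ,
      ∃ F : Finset UnitAddCircle, (F.card : ℝ) ≤ C * (2 : ℝ) ^ ((c + η) * n) ∧
        ∀ x : UnitAddCircle, (count p q ε H x n : ℝ) ≤ c * n → ∃ y ∈ F, ‖x - y‖ ≤ (1 / 2) ^ n) ∧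
    -- 6. clusters
    (∀ ε K : ℝ, 0 < ε → 1 ≤ K → ∃ H₀ : ℝ, ∀ H : ℝ, H₀ ≤ H → ∃ X₀ : ℝ, ∀ X : ℝ, X₀ ≤ X →
      ∀ A : Finset UnitAddCircle,
        (∀ x ∈ A, ∀ y ∈ A, x ≠ y → 1 / X ≤ ‖x - y‖ ∧ ‖x - y‖ ≤ K / X) →
        ((A.filter fun x => ¬ Uniform p q ε X (H * X) x).card : ℝ) ≤ 1 / ε) := by
  have hf : ∀ x, frequency p q x = Pool.Agent.K3h58.WS.freq p q x := frequency_eq p q
  simp_rw [hf]
  refine ⟨fun c hc0 hc1 => Pool.Agent.K3h58.WS.spectrum hp hq hpq hc0 hc1,
    fun μ hμ hip hiq => Pool.Agent.K3h58.WS.dichotomy hp hq hpq μ hip hiq,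
    fun s ν hν => Pool.Agent.K3h58.WS.measure_freq hp hq hpq ν hν,
    fun x μ hμ hne hg => Pool.Agent.K3h58.WS.freq_gen hg hne,
    (Pool.Agent.K3h58.WS.small_gen hp hq hpq).closure.dimH, ?_, ?_⟩
  · intro ε η hε hη
    obtain ⟨H0, hH0, h⟩ := Pool.Agent.K3h58.WS.cover hp hq hpq hε hη
    obtain ⟨H1, hH1⟩ := exists_nat_ge H0
    refine ⟨H1, fun H hH => ?_⟩
    obtain ⟨C, hC, h2⟩ := h H (hH1.trans (by exact_mod_cast hH))
    refine ⟨C, fun c hc n => ?_⟩
    obtain ⟨F, hF1, hF2⟩ := h2 c hc n
    refine ⟨F.image fun a : ℕ => (((a : ℝ) / 2 ^ n : ℝ) : UnitAddCircle), ?_, fun x hx => ?_⟩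
    · refine le_trans ?_ hF1
      exact_mod_cast Finset.card_image_le
    · rw [count_eq hε] at hx
      exact ⟨_, Finset.mem_image_of_mem _ (hF2 x hx), Pool.Agent.K3h58.WS.cell_dist n x⟩
  · intro ε K hε hK
    set m : ℕ := ⌊1 / ε⌋₊ + 1 with hm
    have hm1 : 1 / ε < m := by
      rw [hm]; push_cast; exact Nat.lt_floor_add_one _
    obtain ⟨H0, hH0, h⟩ := Pool.Agent.K3h58.WS.few hp hq hpq hε hm1 hK
    refine ⟨H0, fun H hH => ?_⟩
    obtain ⟨X0, hX0, h2⟩ := h H hH
    refine ⟨X0, fun X hX A hA => ?_⟩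
    by_contra hcon
    push Not at hcon
    set S := A.filter fun x => ¬ Uniform p q ε X (H * X) x with hS
    have hmS : m ≤ S.card := by
      have h3 : ⌊1 / ε⌋₊ < S.card := (Nat.floor_lt (by positivity)).2 hcon
      omega
    obtain ⟨f⟩ : Nonempty (Fin m ↪ S) := by
      refine Function.Embedding.nonempty_of_card_le ?_
      rw [Fintype.card_fin, Fintype.card_coe]
      exact hmS
    obtain ⟨i, hi⟩ := h2 X hX (fun i => (f i : UnitAddCircle)) (fun i j hij => by
      have h3 := Finset.mem_filter.1 (f i).2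
      have h4 := Finset.mem_filter.1 (f j).2
      exact hA _ h3.1 _ h4.1 fun hh => hij (f.injective (Subtype.ext hh)))
    exact (Finset.mem_filter.1 (f i).2).2 ((uniform_iff hε _ _ _).2 hi)

end Pool.Agent.Results.MP_e27144_an.LebesgueFrequency
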